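import Mathlib
import Pool.Agent.Q11.NonCoord

set_option autoImplicit false

namespace Pool.Agent.Results.MP_a59f64_al.NonCoordinatePreimage

open MvPolynomial

universe u

/-- For every field `K` (in particular of characteristic `0`) and every `n ≥ 3` there are an
injective `K`-algebra endomorphism `φ` of `K[x_1, …, x_n]` and a polynomial `p` with
`φ(p) = x_1` (the variable of index `0` here) such that `p` is not a coordinate polynomial, i.e.
`p` is not the image of `x_1` under any `K`-algebra automorphism. -/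
theorem result (K : Type u) [Field K] (n : ℕ) (hn : 3 ≤ n) :
    ∃ (φ : MvPolynomial (Fin n) K →ₐ[K] MvPolynomial (Fin n) K) (p : MvPolynomial (Fin n) K),
      Function.Injective φ ∧ φ p = X (⟨0, by omega⟩ : Fin n) ∧
      ¬ ∃ α : MvPolynomial (Fin n) K ≃ₐ[K] MvPolynomial (Fin n) K,
        α (X (⟨0, by omega⟩ : Fin n)) = p := by
  obtain ⟨m, rfl⟩ : ∃ m, n = m + 3 := ⟨n - 3, by omega⟩
  exact ⟨Q11.NonCoord.phi, X 0 * X 2 + X 1 ^ 2, Q11.NonCoord.phi_inj, Q11.NonCoord.phi_p,
    Q11.NonCoord.not_coord⟩

end Pool.Agent.Results.MP_a59f64_al.NonCoordinatePreimage
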